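import Mathlib
import Pool.Agent.Y100.CLO.Aleph

/-!
# The theory of the clone lattice, sentence by sentence

`L_A` is the lattice `CloneOn A` of the clones on the set `A`.

1. Over infinite sets the lattices `L_A` have exactly the expressive power of third order logic
   over the bare set, with translations of single sentences in both directions.
2. Every finite cardinal `≥ 2` and (among the infinite ones) every `ℵ_n`, `n` finite, is
   characterized by a single first-order sentence about `L_A`.
3. The criterion for elementary equivalence.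
4. There are different infinite cardinals below `ℵ_{𝔠⁺}` with elementarily equivalent clone lattices.
-/

set_option autoImplicit false

namespace Pool.Agent.Results.MP_2972c3_al.SentenceBySentence

universe u

open FirstOrder Language Cardinal Pool.Agent.Helper583 CloneOn Pool.Agent.Y100.CLO

/-- a predicate on posets that is definable by a first-order sentence -/
theorem sentence_of_defO {P : ∀ (M : Type u) [PartialOrder M], Prop}
    (h : DefO.{u} (n := 0) (fun M _ _ => P M)) :
    ∃ φ : Language.order.Sentence, ∀ (M : Type u) [PartialOrder M], M ⊨ φ ↔ P M := by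
  obtain ⟨φ, hφ⟩ := h
  refine ⟨φ, fun M _ => ?_⟩
  refine Iff.trans ?_ (hφ M Fin.elim0)
  simp only [Sentence.Realize, Formula.Realize]
  have e1 : (default : Fin 0 → M) = Fin.elim0 := Subsingleton.elim _ _
  rw [e1]

theorem third_to_order (ψ : ThreeForm 0 0 0) :
    ∃ φ : Language.order.Sentence, ∀ (A : Type u) [Infinite A],
      (CloneOn A ⊨ φ ↔ Sat A ψ Fin.elim0 Fin.elim0 Fin.elim0) := by
  obtain ⟨φ, hφ⟩ := sentence_of_defO.{u} (defO_TrS ψ)
  exact ⟨φ, fun A _ => (hφ (CloneOn A)).trans (TrS_iff ψ)⟩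

theorem order_to_third (φ : Language.order.Sentence) :
    ∃ ψ : ThreeForm 0 0 0, ∀ (A : Type u) [Infinite A],
      (CloneOn A ⊨ φ ↔ Sat A ψ Fin.elim0 Fin.elim0 Fin.elim0) := by
  obtain ⟨ψ, hψ⟩ := trB_sentence.{u} φ
  exact ⟨ψ, fun A _ => (hψ A).symm⟩

/-- the finite cardinals -/
theorem finite_sentence (n : ℕ) (hn : 2 ≤ n) :
    ∃ φ : Language.order.Sentence, ∀ A : Type u, (CloneOn A ⊨ φ ↔ #A = n) := by
  obtain ⟨φ, hφ⟩ := sentence_of_defO.{u} (P := fun M _ => (∃ x : M, ¬ Bt x) ∧
    (Phi n M ∧ ¬ Phi (n - 1) M))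
    (DefO.and (DefO.ex (DefO.not (DefO.bt _))) (DefO.and (defO_Phi n) (DefO.not (defO_Phi (n - 1)))))
  refine ⟨φ, fun A => (hφ (CloneOn A)).trans ?_⟩
  rcases subsingleton_or_nontrivial A with hA | hA
  · constructor
    · rintro ⟨⟨x, hx⟩, -⟩
      exfalso
      apply hx
      rw [bt_iff]
      intro m f _
      exact ⟨0, funext fun y => Subsingleton.elim _ _⟩
    · intro h
      have h1 : #A ≤ 1 := Cardinal.le_one_iff_subsingleton.mpr hA
      rw [h] at h1
      have h2 : n ≤ 1 := by exact_mod_cast h1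
      omega
  · obtain ⟨a⟩ : Nonempty A := inferInstance
    rcases finite_or_infinite A with hf | hi
    · rw [Phi_iff, Phi_iff]
      have h1 : #A = (Nat.card A : ℕ) := (Nat.cast_card (α := A)).symm
      rw [h1, Nat.cast_inj]
      constructor
      · rintro ⟨-, h2, h3⟩
        omega
      · intro h2
        exact ⟨⟨Ca a, (Ca_atm a).1⟩, by omega, by omega⟩
    · constructor
      · rintro ⟨-, h2, -⟩
        exact absurd h2 (not_Phi_infinite n)
      · intro h
        exfalso
        have h1 : ℵ₀ ≤ #A := Cardinal.infinite_iff.mp hi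
        rw [h] at h1
        exact absurd (Cardinal.natCast_lt_aleph0 (n := n)) (not_lt.mpr h1)

/-- the cardinals `ℵ_n` -/
theorem aleph_sentence (n : ℕ) :
    ∃ φ : Language.order.Sentence, ∀ (A : Type u) [Infinite A],
      (CloneOn A ⊨ φ ↔ #A = ℵ_ (n : Ordinal.{u})) := by
  obtain ⟨ψ, hψ⟩ := def_Cd.{u} n
  obtain ⟨φ, hφ⟩ := third_to_order.{u} ψ
  exact ⟨φ, fun A _ => ((hφ A).trans (hψ A _ _ _)).trans (Cd_iff n)⟩

/-- coincidences -/
theorem coincidence : ∃ α β : Ordinal.{u}, α < β ∧
    β < (Order.succ (Cardinal.continuum.{u})).ord ∧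
    ∀ A B : Type u, #A = ℵ_ α → #B = ℵ_ β → CloneOn A ≅[Language.order] CloneOn B := by
  classical
  by_contra hcon
  push Not at hcon
  let F : Set.Iio (Order.succ (Cardinal.continuum.{u})).ord → Set Language.order.Sentence :=
    fun α => {φ : Language.order.Sentence | CloneOn (ℵ_ α.1).out ⊨ φ}
  have key : ∀ α β : Ordinal.{u}, α < β → β < (Order.succ (Cardinal.continuum.{u})).ord →
      {φ : Language.order.Sentence | CloneOn (ℵ_ α).out ⊨ φ} ≠
        {φ : Language.order.Sentence | CloneOn (ℵ_ β).out ⊨ φ} := by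
    intro α β hαβ hβ h
    obtain ⟨A, B, hA, hB, hne⟩ := hcon α β hαβ hβ
    apply hne
    have eA : Nonempty (A ≃ (ℵ_ α).out) := by
      rw [← Cardinal.eq, hA, Cardinal.mk_out]
    have eB : Nonempty (B ≃ (ℵ_ β).out) := by
      rw [← Cardinal.eq, hB, Cardinal.mk_out]
    obtain ⟨eA⟩ := eA
    obtain ⟨eB⟩ := eB
    refine (elem_of_equiv eA).trans (ElementarilyEquivalent.trans ?_ (elem_of_equiv eB).symm)
    rw [elementarilyEquivalent_iff]
    intro φ
    exact Set.ext_iff.mp h φ
  have hF : Function.Injective F := by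
    rintro ⟨α, hα⟩ ⟨β, hβ⟩ h
    rcases lt_trichotomy α β with h1 | h1 | h1
    · exact absurd h (key α β h1 hβ)
    · exact Subtype.ext h1
    · exact absurd h.symm (key β α h1 hα)
  have h1 := Cardinal.lift_mk_le_lift_mk_of_injective hF
  rw [Cardinal.mk_Iio_ordinal, Cardinal.card_ord, Cardinal.mk_set] at h1
  have h2 : #(Language.order.Sentence) ≤ ℵ₀ := Cardinal.mk_le_aleph0
  have h3 : Cardinal.lift.{u + 1, 0} (2 ^ #(Language.order.Sentence)) ≤
      Cardinal.lift.{u + 1, 0} (Cardinal.continuum.{0}) :=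
    Cardinal.lift_le.mpr (by
      rw [← Cardinal.two_power_aleph0]
      exact Cardinal.power_le_power_left two_ne_zero h2)
  have h4 := h1.trans h3
  rw [Cardinal.lift_continuum] at h4
  have h5 : Cardinal.lift.{u + 1, u} (Order.succ (Cardinal.continuum.{u})) ≤
      Cardinal.lift.{u + 1, u} (Cardinal.continuum.{u}) := by
    rw [Cardinal.lift_continuum]
    simp at h4
  rw [Cardinal.lift_le] at h5
  exact absurd (Order.lt_succ (Cardinal.continuum.{u})) (not_lt.mpr h5)

/-- **Main theorem.** Let `L_A = CloneOn A` be the lattice of the clones on the set `A`.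

(1) For every first-order sentence `φ` about lattices there is a sentence `ψ` of third order logic
without nonlogical symbols such that `L_A ⊨ φ ↔ A ⊨ ψ` for all infinite sets `A`; and vice versa.

(2) For every natural number `n ≥ 2` there is a sentence `φ` such that `L_A ⊨ φ` if and only if
`A` has `n` elements, for all sets `A`.

(3) For every natural number `n` there is a sentence `φ` such that `L_A ⊨ φ` if and only if `A`
has `ℵ_n` elements, for all infinite sets `A`; a set `B` has `L_B` elementarily equivalent to `L_A`,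
`A` of cardinality `ℵ_n`, only if it has cardinality `ℵ_n` itself.

(4) The criterion: for sets `A`, `B` of cardinalities `κ`, `μ` the lattices `L_A`, `L_B` are
elementarily equivalent if and only if both cardinals are at most one, or they are equal, or both
are infinite and the two bare sets satisfy the same third order sentences.

(5) There are ordinals `α < β < 𝔠⁺` such that the lattices for `ℵ_α` and `ℵ_β` are elementarily
equivalent. -/
theorem result :
    (∀ φ : Language.order.Sentence, ∃ ψ : ThreeForm 0 0 0, ∀ (A : Type u) [Infinite A],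
      (CloneOn A ⊨ φ ↔ Sat A ψ Fin.elim0 Fin.elim0 Fin.elim0)) ∧
    (∀ ψ : ThreeForm 0 0 0, ∃ φ : Language.order.Sentence, ∀ (A : Type u) [Infinite A],
      (CloneOn A ⊨ φ ↔ Sat A ψ Fin.elim0 Fin.elim0 Fin.elim0)) ∧
    (∀ n : ℕ, 2 ≤ n → ∃ φ : Language.order.Sentence, ∀ A : Type u,
      (CloneOn A ⊨ φ ↔ #A = n)) ∧
    (∀ n : ℕ, (∃ φ : Language.order.Sentence, ∀ (A : Type u) [Infinite A],
        (CloneOn A ⊨ φ ↔ #A = ℵ_ (n : Ordinal.{u}))) ∧
      ∀ A B : Type u, #A = ℵ_ (n : Ordinal.{u}) →
        (CloneOn A ≅[Language.order] CloneOn B ↔ #B = ℵ_ (n : Ordinal.{u}))) ∧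
    (∀ (κ μ : Cardinal.{u}) (A B : Type u), #A = κ → #B = μ →
      (CloneOn A ≅[Language.order] CloneOn B ↔
        (κ ≤ 1 ∧ μ ≤ 1) ∨ κ = μ ∨ (ℵ₀ ≤ κ ∧ ℵ₀ ≤ μ ∧ ThirdOrderEquiv A B))) ∧
    (∃ α β : Ordinal.{u}, α < β ∧ β < (Order.succ (Cardinal.continuum.{u})).ord ∧
      ∀ A B : Type u, #A = ℵ_ α → #B = ℵ_ β → CloneOn A ≅[Language.order] CloneOn B) := by
  have hcrit : ∀ (κ μ : Cardinal.{u}) (A B : Type u), #A = κ → #B = μ →
      (CloneOn A ≅[Language.order] CloneOn B ↔
        (κ ≤ 1 ∧ μ ≤ 1) ∨ κ = μ ∨ (ℵ₀ ≤ κ ∧ ℵ₀ ≤ μ ∧ ThirdOrderEquiv A B)) := by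
    rintro κ μ A B rfl rfl
    rw [criterion_sets, le_one_iff_subsingleton, le_one_iff_subsingleton, Cardinal.eq,
      ← infinite_iff, ← infinite_iff]
  refine ⟨order_to_third, third_to_order, finite_sentence, fun n => ⟨aleph_sentence n, ?_⟩, hcrit,
    coincidence⟩
  intro A B hA
  have hiA : Infinite A := by
    rw [Cardinal.infinite_iff, hA]
    exact Cardinal.aleph0_le_aleph _
  constructor
  · intro h
    obtain ⟨φ, hφ⟩ := aleph_sentence.{u} n
    rcases (hcrit _ _ A B rfl rfl).mp h with h1 | h1 | h1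
    · exact absurd h1.1 (by
        rw [not_le]
        exact Cardinal.one_lt_aleph0.trans_le (Cardinal.infinite_iff.mp hiA))
    · rw [← h1, hA]
    · have hiB : Infinite B := Cardinal.infinite_iff.mpr h1.2.1
      rw [← hφ B, ← (elementarilyEquivalent_iff.mp h φ), hφ A]
      exact hA
  · intro hB
    obtain ⟨e⟩ := Cardinal.eq.mp (hA.trans hB.symm)
    exact elem_of_equiv e

end Pool.Agent.Results.MP_2972c3_al.SentenceBySentence
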